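import Pool.Agent.Lib.MP_bae66e_nt.E2.Fin

/-!
# Almost all even `m` are `p + r q` with primes `p, r ≤ (log m)^C` and `q`

For a positive proportion of the primes `r ≤ z = 2 (log m)^a` the number `m - p` is `r` times a prime for
at least a constant times the expected number of the primes `p ≤ z²`. All constants are absolute.
-/

set_option autoImplicit false

namespace Pool.Agent.Results.MP_bae66e_nt.AlmostAllE2

open Finset Real

open Classical in
/-- The number of the primes `p ≤ y` such that `m = p + r q` for a prime `q`. -/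
noncomputable def reps (m r : ℕ) (y : ℝ) : ℕ :=
  #{p ∈ Icc 1 ⌊y⌋₊ | p.Prime ∧ ∃ q : ℕ, q.Prime ∧ m = p + r * q}

open Classical in
/-- The number of the primes `r ≤ z` for which `m = p + r q` holds, with `q` prime, for at least
`c π(z²) / (z log m)` primes `p ≤ z²`. -/
noncomputable def goodPrimes (c : ℝ) (m : ℕ) (z : ℝ) : ℕ :=
  #{r ∈ Icc 1 ⌊z⌋₊ | r.Prime ∧
    c * ((Nat.primeCounting ⌊z ^ 2⌋₊ : ℝ) / (z * log (m : ℝ))) ≤ reps m r (z ^ 2)}

/-- At least `c π(z)` primes `r ≤ z` are good. -/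
def PositiveProportion (c : ℝ) (m : ℕ) (z : ℝ) : Prop :=
  c * (Nat.primeCounting ⌊z⌋₊ : ℝ) ≤ goodPrimes c m z

open Classical in
/-- There are `c > 0` and `a₀` such that for all `a ≥ a₀` almost all even `m` have this property: with
`z = 2 (log m)^a`, at least `c π(z)` of the primes `r ≤ z` are such that `(m - p)/r` is prime for at least
`c π(z²)/(z log m)` of the primes `p ≤ z²`. -/
theorem result : ∃ c a₀ : ℝ, 0 < c ∧ ∀ a : ℝ, a₀ ≤ a → ∀ δ : ℝ, 0 < δ →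
    ∃ N₀ : ℕ, ∀ N : ℕ, N₀ ≤ N →
      (#{m ∈ Icc 1 N | Even m ∧ ¬ PositiveProportion c m (2 * (log (m : ℝ)) ^ a)} : ℝ) ≤ δ * N := by
  obtain ⟨c, a₀, hc, hmain⟩ := Pool.Agent.Lib.MP_bae66e_nt.E2.almost_all_e2
  refine ⟨c, a₀, hc, fun a ha δ hδ => ?_⟩
  obtain ⟨N₀, h⟩ := hmain a ha δ hδ
  refine ⟨N₀, fun N hN => le_trans (Nat.cast_le.2 (card_le_card fun m hm => ?_)) (h N hN)⟩
  rw [mem_filter] at hm ⊢
  refine ⟨hm.1, hm.2.1, fun hcon => hm.2.2 ?_⟩
  unfold PositiveProportion goodPrimes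
  refine le_trans hcon (Nat.cast_le.2 (card_le_card fun r hr => ?_))
  unfold Pool.Agent.Lib.MP_bae66e_nt.E2.goodR at hr
  rw [mem_filter] at hr ⊢
  refine ⟨hr.1, hr.2.1, le_trans hr.2.2 (Nat.cast_le.2 (card_le_card fun p hp => ?_))⟩
  rw [mem_filter] at hp ⊢
  exact hp

/-- `m = p + r q` with primes `p ≤ y`, `r ≤ z` and `q`. -/
def IsSum (m : ℕ) (y z : ℝ) : Prop :=
  ∃ p r q : ℕ, p.Prime ∧ r.Prime ∧ q.Prime ∧ m = p + r * q ∧ (p : ℝ) ≤ y ∧ (r : ℝ) ≤ z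

open Classical in
/-- In particular almost all even `m` are `p + r q` with `p`, `r`, `q` prime and `p, r ≤ (log m)^C`. -/
theorem almost_all : ∃ C : ℝ, 0 < C ∧ ∀ δ : ℝ, 0 < δ → ∃ N₀ : ℕ, ∀ N : ℕ, N₀ ≤ N →
    (#{m ∈ Icc 1 N | Even m ∧ ¬ IsSum m ((log (m : ℝ)) ^ C) ((log (m : ℝ)) ^ C)} : ℝ) ≤ δ * N := by
  obtain ⟨c, a₀, hc, hmain⟩ := result
  set a : ℝ := max a₀ 1 with ha
  have ha1 : 1 ≤ a := le_max_right _ _
  refine ⟨4 * a, by linarith, fun δ hδ => ?_⟩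
  obtain ⟨N₁, h1⟩ := hmain a (le_max_left _ _) (δ / 2) (by positivity)
  refine ⟨max N₁ ⌈(32 : ℝ) / δ⌉₊, fun N hN => ?_⟩
  have hNa : N₁ ≤ N := (le_max_left _ _).trans hN
  have hNb : (32 : ℝ) / δ ≤ N := (Nat.le_ceil _).trans (by exact_mod_cast (le_max_right _ _).trans hN)
  rw [div_le_iff₀ hδ] at hNb
  have e1 := h1 N hNa
  set S : Finset ℕ := {m ∈ Icc 1 N | Even m ∧ ¬ PositiveProportion c m (2 * (log (m : ℝ)) ^ a)} with hS
  have hcard : ((S ∪ range 16).card : ℝ) ≤ δ * N := by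
    have h2 : ((S ∪ range 16).card : ℝ) ≤ (S.card : ℝ) + ((range 16).card : ℝ) := by
      exact_mod_cast card_union_le _ _
    rw [card_range] at h2
    push_cast at h2
    linarith
  refine le_trans (Nat.cast_le.2 (card_le_card ?_)) hcard
  intro m hm
  have hm' := Finset.mem_filter.1 hm
  obtain ⟨hm1, hm2, hm3⟩ := hm'
  rw [mem_union]
  by_cases hm16 : m < 16
  · exact Or.inr (mem_range.2 hm16)
  left
  push Not at hm16
  rw [hS, Finset.mem_filter]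
  refine ⟨hm1, hm2, fun hgood => hm3 ?_⟩
  unfold PositiveProportion goodPrimes at hgood
  have hmr : (16 : ℝ) ≤ m := by exact_mod_cast hm16
  have hlog : 2 ≤ log (m : ℝ) := by
    rw [Real.le_log_iff_exp_le (by linarith)]
    have h3 := Real.exp_one_lt_d9
    have h4 : Real.exp 2 = Real.exp 1 * Real.exp 1 := by
      rw [← Real.exp_add]
      norm_num
    have h5 := Real.exp_pos 1
    nlinarith
  set l : ℝ := log (m : ℝ) with hl
  have hl0 : 0 < l := by linarith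
  set z : ℝ := 2 * l ^ a with hz
  have hla2 : 2 ≤ l ^ a := by
    calc (2 : ℝ) ≤ l := hlog
      _ = l ^ (1 : ℝ) := (Real.rpow_one l).symm
      _ ≤ l ^ a := Real.rpow_le_rpow_of_exponent_le (by linarith) ha1
  have hz2 : 2 ≤ z := by linarith
  have hfl : 2 ≤ ⌊z ^ 2⌋₊ := Nat.le_floor (by push_cast; nlinarith)
  have hfl' : 2 ≤ ⌊z⌋₊ := Nat.le_floor (by push_cast; linarith)
  have hpi : ∀ k : ℕ, 2 ≤ k → 0 < Nat.primeCounting k := by
    intro k hk
    have := Nat.monotone_primeCounting hk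
    rw [show Nat.primeCounting 2 = 1 by decide] at this
    omega
  have hz4 : z ^ 2 ≤ l ^ (4 * a) := by
    have h6 : l ^ (4 * a) = (l ^ a) ^ 2 * (l ^ a) ^ 2 := by
      rw [← Real.rpow_natCast, ← Real.rpow_mul hl0.le, ← Real.rpow_add hl0]
      congr 1
      push_cast
      ring
    rw [h6, hz]
    have h7 : 4 ≤ (l ^ a) ^ 2 := by nlinarith
    have h8 : 0 ≤ (l ^ a) ^ 2 := sq_nonneg _
    nlinarith
  have hzz : z ≤ l ^ (4 * a) := by nlinarith
  have hgp : 0 < #{r ∈ Icc 1 ⌊z⌋₊ | r.Prime ∧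
      c * ((Nat.primeCounting ⌊z ^ 2⌋₊ : ℝ) / (z * l)) ≤ reps m r (z ^ 2)} := by
    have h3 : (0 : ℝ) < c * (Nat.primeCounting ⌊z⌋₊ : ℝ) := by
      have : (0 : ℝ) < (Nat.primeCounting ⌊z⌋₊ : ℝ) := by exact_mod_cast hpi _ hfl'
      positivity
    have h4 := h3.trans_le hgood
    exact_mod_cast h4
  obtain ⟨r, hr⟩ := card_pos.1 hgp
  rw [mem_filter, mem_Icc] at hr
  obtain ⟨⟨hr1, hr2⟩, hrp, hr3⟩ := hr
  have hpos : 0 < reps m r (z ^ 2) := by
    have h3 : (0 : ℝ) < c * ((Nat.primeCounting ⌊z ^ 2⌋₊ : ℝ) / (z * l)) := by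
      have : (0 : ℝ) < (Nat.primeCounting ⌊z ^ 2⌋₊ : ℝ) := by exact_mod_cast hpi _ hfl
      positivity
    have h4 := h3.trans_le hr3
    exact_mod_cast h4
  unfold reps at hpos
  obtain ⟨p, hp⟩ := card_pos.1 hpos
  rw [mem_filter, mem_Icc] at hp
  obtain ⟨⟨hp1, hp2⟩, hp3, q, hq, he⟩ := hp
  exact ⟨p, r, q, hp3, hrp, hq, he, ((Nat.le_floor_iff (by positivity)).1 hp2).trans hz4,
    ((Nat.le_floor_iff (by positivity)).1 hr2).trans hzz⟩

end Pool.Agent.Results.MP_bae66e_nt.AlmostAllE2
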