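import Pool.Agent.Lib.MP_bae66e_nt.E3.F7
import Pool.Agent.Lib.MP_bae66e_nt.E3.F8

/-!
# Almost all even `m` are `p + r₁ r₂ q` with `p ≤ log m (log log m)^C`, `r₁ ≤ (log log m)^C`, `r₂ ≤ (log m)^C`

Here `p`, `r₁`, `r₂`, `q` are primes. The size of `p` is optimal up to a power of `log log m`.
-/

set_option autoImplicit false

namespace Pool.Agent.Results.MP_bae66e_nt.AlmostAllE3

open Finset Real

/-- `m = p + r₁ r₂ q` with `p`, `r₁`, `r₂`, `q` prime, `p ≤ y`, `r₁ ≤ z₁` and `r₂ ≤ z₂`. -/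
def Rep (m : ℕ) (y z₁ z₂ : ℝ) : Prop :=
  ∃ p r₁ r₂ q : ℕ, p.Prime ∧ r₁.Prime ∧ r₂.Prime ∧ q.Prime ∧ m = p + r₁ * r₂ * q ∧
    (p : ℝ) ≤ y ∧ (r₁ : ℝ) ≤ z₁ ∧ (r₂ : ℝ) ≤ z₂

open Classical in
/-- Almost all even `m` have the property `P`: for every `δ > 0` all but at most `δ N` of the even
`m ≤ N` have it, for all large `N`. -/
def AlmostAllEven (P : ℕ → Prop) : Prop :=
  ∀ δ : ℝ, 0 < δ → ∃ N₀ : ℕ, ∀ N : ℕ, N₀ ≤ N → (#{m ∈ Icc 1 N | Even m ∧ ¬ P m} : ℝ) ≤ δ * N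

private theorem almost_of (P : ℕ → Prop) (h : ∀ δ : ℝ, 0 < δ → ∃ N₀ : ℕ, ∀ N : ℕ, N₀ ≤ N →
    ∃ S : Finset ℕ, (S.card : ℝ) ≤ δ * N ∧ ∀ m ∈ Icc 1 N, Even m → ¬ P m → m ∈ S) :
    AlmostAllEven P := by
  classical
  intro δ hδ
  obtain ⟨N₀, hN₀⟩ := h δ hδ
  refine ⟨N₀, fun N hN => ?_⟩
  obtain ⟨S, hS, hsub⟩ := hN₀ N hN
  refine le_trans (Nat.cast_le.2 (card_le_card ?_)) hS
  intro m hm
  have hm' := Finset.mem_filter.1 hm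
  exact hsub m hm'.1 hm'.2.1 hm'.2.2

/-- There is a constant `C` such that, for all `A ≥ 1` and `0 < ε ≤ 1`, almost all even `m`

* are `p + r₁ r₂ q` with primes `p ≤ log m (log log m)^C`, `r₁ ≤ (log log m)^C`,
  `r₂ ≤ (log m)^C` and `q`, and
* are not `p + r₁ r₂ q` with primes `p ≤ log m (log log m)^(1 - ε)`, `r₁, r₂ ≤ (log m)^A`
  and `q`. -/
theorem result : ∃ C : ℝ, 0 < C ∧ ∀ A ε : ℝ, 1 ≤ A → 0 < ε → ε ≤ 1 →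
    AlmostAllEven fun m =>
      Rep m (log m * (log (log m)) ^ C) ((log (log m)) ^ C) ((log m) ^ C) ∧
      ¬ Rep m (log m * (log (log m)) ^ (1 - ε)) ((log m) ^ A) ((log m) ^ A) := by
  classical
  obtain ⟨C, hC, hup⟩ := Pool.Agent.E3.final2
  refine ⟨C, hC, fun A ε hA hε hε1 => almost_of _ fun δ hδ => ?_⟩
  obtain ⟨N₁, h1⟩ := hup (δ / 2) (by positivity)
  obtain ⟨N₂, h2⟩ := Pool.Agent.E3.few_small2 A (1 - ε) hA (by linarith) (by linarith)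
    (δ / 2) (by positivity)
  refine ⟨max N₁ N₂, fun N hN => ?_⟩
  have e1 := h1 N ((le_max_left _ _).trans hN)
  have e2 := h2 N ((le_max_right _ _).trans hN)
  set S1 : Finset ℕ := {m ∈ Icc 1 N | Even m ∧ ¬ ∃ p r₁ r₂ q : ℕ, p.Prime ∧ r₁.Prime ∧ r₂.Prime ∧
      q.Prime ∧ m = p + r₁ * r₂ * q ∧ (p : ℝ) ≤ Real.log m * (Real.log (Real.log m)) ^ C ∧
      (r₁ : ℝ) ≤ (Real.log (Real.log m)) ^ C ∧ (r₂ : ℝ) ≤ (Real.log m) ^ C} with hS1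
  set S2 : Finset ℕ := {m ∈ Icc 1 N | ∃ p r₁ r₂ q : ℕ, p.Prime ∧ r₁.Prime ∧ r₂.Prime ∧ q.Prime ∧
      m = p + r₁ * r₂ * q ∧ (p : ℝ) ≤ Real.log m * (Real.log (Real.log m)) ^ (1 - ε) ∧
      (r₁ : ℝ) ≤ (Real.log m) ^ A ∧ (r₂ : ℝ) ≤ (Real.log m) ^ A} with hS2
  have hun : ((S1 ∪ S2).card : ℝ) ≤ (S1.card : ℝ) + (S2.card : ℝ) := by
    exact_mod_cast card_union_le S1 S2
  refine ⟨S1 ∪ S2, by linarith, fun m hm1 hm2 hm3 => ?_⟩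
  rw [mem_union]
  by_cases h : Rep m (log m * (log (log m)) ^ C) ((log (log m)) ^ C) ((log m) ^ C)
  · right
    rw [hS2, mem_filter]
    refine ⟨hm1, ?_⟩
    by_contra hcon
    exact hm3 ⟨h, hcon⟩
  · left
    rw [hS1, mem_filter]
    exact ⟨hm1, hm2, h⟩

end Pool.Agent.Results.MP_bae66e_nt.AlmostAllE3
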