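import Pool.Agent.Lib.MP_bae66e_nt.AC.RowK

/-!
# For almost all even `m` a positive proportion of the multiples `r m` have many small Goldbach primes

Here `r` runs over the primes `r ≤ z = 2 (log m)^a`, and the primes `p` with `r m - p` prime are counted up
to `z²`. In particular `g(r m) ≤ z²`, where `g(n)` is the least prime `p` with `n - p` prime. All constants
are absolute.
-/

set_option autoImplicit false

namespace Pool.Agent.Results.MP_bae66e_nt.AlmostAllMultiples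

open Finset Real

open Classical in
/-- The number of the primes `p ≤ y` with `n - p` prime. -/
noncomputable def reps (n : ℕ) (y : ℝ) : ℕ :=
  #{p ∈ Icc 1 ⌊y⌋₊ | p.Prime ∧ ∃ q : ℕ, q.Prime ∧ n = p + q}

open Classical in
/-- The number of the primes `r ≤ z` for which `r m - p` is prime for at least `c π(z²)/log m` primes
`p ≤ z²`. -/
noncomputable def goodPrimes (c : ℝ) (m : ℕ) (z : ℝ) : ℕ :=
  #{r ∈ Icc 1 ⌊z⌋₊ | r.Prime ∧
    c * ((Nat.primeCounting ⌊z ^ 2⌋₊ : ℝ) / log (m : ℝ)) ≤ reps (r * m) (z ^ 2)}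

/-- At least `c π(z)` primes `r ≤ z` are good. -/
def PositiveProportion (c : ℝ) (m : ℕ) (z : ℝ) : Prop :=
  c * (Nat.primeCounting ⌊z⌋₊ : ℝ) ≤ goodPrimes c m z

open Classical in
/-- There are `c > 0` and `a₀` such that for all `a ≥ a₀` almost all even `m` have this property: with
`z = 2 (log m)^a`, at least `c π(z)` of the primes `r ≤ z` are such that `r m - p` is prime for at least
`c π(z²)/log m` of the primes `p ≤ z²`. -/
theorem result : ∃ c a₀ : ℝ, 0 < c ∧ ∀ a : ℝ, a₀ ≤ a → ∀ δ : ℝ, 0 < δ →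
    ∃ N₀ : ℕ, ∀ N : ℕ, N₀ ≤ N →
      (#{m ∈ Icc 1 N | Even m ∧ ¬ PositiveProportion c m (2 * (log (m : ℝ)) ^ a)} : ℝ) ≤ δ * N := by
  obtain ⟨c, a₀, hc, hmain⟩ := Pool.Agent.Lib.MP_bae66e_nt.AC.many_abs
  refine ⟨c, a₀, hc, fun a ha δ hδ => ?_⟩
  obtain ⟨N₀, h⟩ := hmain a ha δ hδ
  refine ⟨N₀, fun N hN => le_trans (Nat.cast_le.2 (card_le_card fun m hm => ?_)) (h N hN)⟩
  rw [mem_filter] at hm ⊢
  refine ⟨hm.1, hm.2.1, fun hcon => hm.2.2 ?_⟩
  unfold PositiveProportion goodPrimes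
  refine le_trans hcon (Nat.cast_le.2 (card_le_card fun r hr => ?_))
  unfold Pool.Agent.Lib.MP_bae66e_nt.AC.goodR at hr
  rw [mem_filter] at hr ⊢
  refine ⟨hr.1, hr.2.1, le_trans hr.2.2 (Nat.cast_le.2 (card_le_card fun p hp => ?_))⟩
  rw [mem_filter] at hp ⊢
  exact hp

/-- `n = p + q` with `p`, `q` prime and `p ≤ y`; for even `n ≥ 4` this says `g(n) ≤ y`, where `g(n)` is
the least prime `p` with `n - p` prime. -/
def GLe (n : ℕ) (y : ℝ) : Prop :=
  ∃ p q : ℕ, p.Prime ∧ q.Prime ∧ n = p + q ∧ (p : ℝ) ≤ y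

open Classical in
/-- In particular `g(r m) ≤ z² = 4 (log m)^(2a)` for at least `c π(z)` of the primes `r ≤ z`. -/
theorem least_prime : ∃ c a₀ : ℝ, 0 < c ∧ ∀ a : ℝ, a₀ ≤ a → ∀ δ : ℝ, 0 < δ →
    ∃ N₀ : ℕ, ∀ N : ℕ, N₀ ≤ N →
      (#{m ∈ Icc 1 N | Even m ∧ ¬ (c * (Nat.primeCounting ⌊2 * (log ((m : ℕ) : ℝ)) ^ a⌋₊ : ℝ) ≤
        #{r ∈ Icc 1 ⌊2 * (log (m : ℝ)) ^ a⌋₊ | r.Prime ∧ GLe (r * m) ((2 * (log (m : ℝ)) ^ a) ^ 2)})} : ℝ)
        ≤ δ * N := by
  obtain ⟨c, a₀, hc, hmain⟩ := result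
  refine ⟨c, max a₀ 1, hc, fun a ha δ hδ => ?_⟩
  obtain ⟨N₁, h1⟩ := hmain a ((le_max_left _ _).trans ha) (δ / 2) (by positivity)
  have ha1 : 1 ≤ a := (le_max_right _ _).trans ha
  refine ⟨max N₁ ⌈(32 : ℝ) / δ⌉₊, fun N hN => ?_⟩
  have hNa : N₁ ≤ N := (le_max_left _ _).trans hN
  have hNb : (32 : ℝ) / δ ≤ N := (Nat.le_ceil _).trans (by exact_mod_cast (le_max_right _ _).trans hN)
  rw [div_le_iff₀ hδ] at hNb
  have e1 := h1 N hNa
  set S : Finset ℕ := {m ∈ Icc 1 N | Even m ∧ ¬ PositiveProportion c m (2 * (log (m : ℝ)) ^ a)} with hS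
  have hcard : ((S ∪ range 16).card : ℝ) ≤ δ * N := by
    have h2 : ((S ∪ range 16).card : ℝ) ≤ (S.card : ℝ) + ((range 16).card : ℝ) := by
      exact_mod_cast card_union_le _ _
    rw [card_range] at h2
    push_cast at h2
    linarith
  refine le_trans (Nat.cast_le.2 (card_le_card ?_)) hcard
  intro m hm
  have hm' := Finset.mem_filter.1 hm
  obtain ⟨hm1, hm2, hm3⟩ := hm'
  rw [mem_union]
  by_cases hm16 : m < 16
  · exact Or.inr (mem_range.2 hm16)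
  left
  push Not at hm16
  rw [hS, Finset.mem_filter]
  refine ⟨hm1, hm2, fun hgood => hm3 ?_⟩
  unfold PositiveProportion goodPrimes at hgood
  have hmr : (16 : ℝ) ≤ m := by exact_mod_cast hm16
  have hlog : 1 ≤ log (m : ℝ) := by
    rw [Real.le_log_iff_exp_le (by linarith)]
    have := Real.exp_one_lt_d9
    linarith
  set z : ℝ := 2 * (log (m : ℝ)) ^ a with hz
  have hz2 : 2 ≤ z := by
    have := Real.one_le_rpow hlog (by linarith : (0 : ℝ) ≤ a)
    linarith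
  have hfl : 2 ≤ ⌊z ^ 2⌋₊ := Nat.le_floor (by push_cast; nlinarith)
  have hpi : 0 < Nat.primeCounting ⌊z ^ 2⌋₊ := by
    have := Nat.monotone_primeCounting hfl
    rw [show Nat.primeCounting 2 = 1 by decide] at this
    omega
  refine le_trans hgood (Nat.cast_le.2 (card_le_card fun r hr => ?_))
  rw [mem_filter] at hr ⊢
  refine ⟨hr.1, hr.2.1, ?_⟩
  have hpos : 0 < reps (r * m) (z ^ 2) := by
    have h3 : (0 : ℝ) < c * ((Nat.primeCounting ⌊z ^ 2⌋₊ : ℝ) / log (m : ℝ)) := by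
      have : (0 : ℝ) < (Nat.primeCounting ⌊z ^ 2⌋₊ : ℝ) := by exact_mod_cast hpi
      positivity
    have h4 := h3.trans_le hr.2.2
    exact_mod_cast h4
  unfold reps at hpos
  obtain ⟨p, hp⟩ := card_pos.1 hpos
  rw [mem_filter, mem_Icc] at hp
  obtain ⟨⟨hp1, hp2⟩, hp3, q, hq, he⟩ := hp
  exact ⟨p, q, hp3, hq, he, (Nat.le_floor_iff (by positivity)).1 hp2⟩

end Pool.Agent.Results.MP_bae66e_nt.AlmostAllMultiples
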