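import Pool.Agent.Lib.MP_bae66e_nt.CramerLower2

/-!
# The least summand in the Cramér random model, sieved by the primes up to `z`

Let `R` be a random set of natural numbers: the numbers `n` without prime factors `≤ z` are put
into `R` independently with probability `min(1, κ / log n)`, where `κ = ∏_{ℓ ≤ z} (1 - 1/ℓ)⁻¹`,
and no other number is put into `R`. Almost surely, for every `ε > 0`:

* every large `m` whose truncated singular series `𝔖(m)` is positive is a sum of two members
  of `R`, the smaller one being at most `(2 + ε) (log m)² log log m / 𝔖(m)`;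
* in each residue class modulo the product of the primes `≤ z` on which `𝔖` is positive there
  are infinitely many `m` for which no representation `m = r + r'` has
  `r ≤ (2 - ε) (log m)² log log m / 𝔖(m)`.
-/

open MeasureTheory ProbabilityTheory Filter

namespace Pool.Agent.Lib.MP_bae66e_nt.RetiredCramerModel

open Pool.Agent.Lib.MP_bae66e_nt

/-- Let `E n` be independent events, `E n` (the event `n ∈ R`) having probability
`inclProb z n`. Then almost surely, for every `ε > 0`: every large `m` with `sing z m > 0` has a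
representation `m = r + (m - r)` with `r, m - r ∈ R` and
`r ≤ (2 + ε) (log m)² log log m / sing z m`, and for every `a` with `sing z a > 0` there are
infinitely many `m ≡ a` modulo `primorial z` such that every representation
`m = r + (m - r)` with `r, m - r ∈ R` has `r > (2 - ε) (log m)² log log m / sing z m`. -/
theorem result {Ω : Type*} [MeasurableSpace Ω] (μ : Measure Ω) [IsProbabilityMeasure μ] (z : ℕ)
    (E : ℕ → Set Ω) (hE : ∀ n, MeasurableSet (E n)) (hind : iIndepSet E μ)
    (hp : ∀ n, μ (E n) = ENNReal.ofReal (inclProb z n)) :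
    ∀ᵐ ω ∂μ, ∀ ε : ℝ, 0 < ε →
      (∀ᶠ m : ℕ in atTop, 0 < sing z m →
        ∃ r ≤ m, ω ∈ E r ∧ ω ∈ E (m - r) ∧
          (r : ℝ) ≤ (2 + ε) / sing z m * Real.log m ^ 2 * Real.log (Real.log m)) ∧
      (∀ a : ℕ, 0 < sing z a →
        ∃ᶠ m : ℕ in atTop, m ≡ a [MOD primorial z] ∧
          ∀ r ≤ m, ω ∈ E r → ω ∈ E (m - r) →
            (2 - ε) / sing z m * Real.log m ^ 2 * Real.log (Real.log m) < r) := by
  have hu : ∀ᵐ ω ∂μ, ∀ a n : ℕ, 0 < sing z a →
      ∀ᶠ m : ℕ in atTop, m ≡ a [MOD primorial z] →
        ∃ r ≤ m, ω ∈ E r ∧ ω ∈ E (m - r) ∧ (r : ℝ) ≤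
          (2 + 1 / ((n : ℝ) + 1)) / sing z a * Real.log m ^ 2 * Real.log (Real.log m) := by
    refine ae_all_iff.mpr fun a => ae_all_iff.mpr fun n => ?_
    by_cases ha : 0 < sing z a
    · filter_upwards [upper_half z a ha hE hind hp (1 / ((n : ℝ) + 1)) (by positivity)
        (by rw [div_le_one (by positivity)]; linarith [Nat.cast_nonneg (α := ℝ) n])] with ω hω _
      exact hω
    · exact Eventually.of_forall fun ω h => absurd h ha
  have hl : ∀ᵐ ω ∂μ, ∀ a n : ℕ, 0 < sing z a →
      ∃ᶠ m : ℕ in atTop, m ≡ a [MOD primorial z] ∧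
        ∀ r ≤ m, ω ∈ E r → ω ∈ E (m - r) →
          (2 - 1 / ((n : ℝ) + 1)) / sing z a * Real.log m ^ 2 * Real.log (Real.log m) < r := by
    refine ae_all_iff.mpr fun a => ae_all_iff.mpr fun n => ?_
    by_cases ha : 0 < sing z a
    · filter_upwards [lower_half z a ha hE hind hp (1 / ((n : ℝ) + 1)) (by positivity)
        (by rw [div_le_one (by positivity)]; linarith [Nat.cast_nonneg (α := ℝ) n])] with ω hω _
      exact hω
    · exact Eventually.of_forall fun ω h => absurd h ha
  have hlog : Tendsto (fun m : ℕ => Real.log m) atTop atTop :=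
    Real.tendsto_log_atTop.comp tendsto_natCast_atTop_atTop
  have hlog1 : ∀ᶠ m : ℕ in atTop, 1 ≤ Real.log m := hlog.eventually_ge_atTop 1
  filter_upwards [hu, hl] with ω hωu hωl ε hε
  obtain ⟨n, hn⟩ := exists_nat_one_div_lt hε
  have hQ0 : 0 < primorial z := primorial_pos z
  refine ⟨?_, ?_⟩
  · have hall : ∀ᶠ m : ℕ in atTop, ∀ a ∈ Finset.range (primorial z), 0 < sing z a →
        m ≡ a [MOD primorial z] →
        ∃ r ≤ m, ω ∈ E r ∧ ω ∈ E (m - r) ∧ (r : ℝ) ≤
          (2 + 1 / ((n : ℝ) + 1)) / sing z a * Real.log m ^ 2 * Real.log (Real.log m) := by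
      rw [Filter.eventually_all_finset]
      intro a _
      by_cases ha : 0 < sing z a
      · filter_upwards [hωu a n ha] with m hm _
        exact hm
      · exact Eventually.of_forall fun m h => absurd h ha
    filter_upwards [hall, hlog1] with m hm hm1 hS
    have hmod : m ≡ m % primorial z [MOD primorial z] := (Nat.mod_modEq m _).symm
    have hSeq : sing z m = sing z (m % primorial z) := sing_mod z m hmod
    obtain ⟨r, hr, h1, h2, h3⟩ := hm (m % primorial z)
      (Finset.mem_range.mpr (Nat.mod_lt _ hQ0)) (hSeq ▸ hS) hmod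
    refine ⟨r, hr, h1, h2, h3.trans ?_⟩
    rw [← hSeq]
    have : 0 ≤ Real.log (Real.log m) := Real.log_nonneg hm1
    gcongr
  · intro a ha
    have := (hωl a n ha).and_eventually hlog1
    refine this.mono ?_
    rintro m ⟨⟨hma, hm⟩, hm1⟩
    refine ⟨hma, fun r hr h1 h2 => lt_of_le_of_lt ?_ (hm r hr h1 h2)⟩
    rw [sing_mod z m hma]
    have : 0 ≤ Real.log (Real.log m) := Real.log_nonneg hm1
    gcongr

end Pool.Agent.Lib.MP_bae66e_nt.RetiredCramerModel
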