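import Pool.Agent.Lib.MP_bae66e_nt.TL.E11

/-!
# Large values of the least Goldbach prime in every interval
-/

set_option autoImplicit false

open Finset

namespace Pool.Agent.Results.MP_bae66e_nt.LargeValuesThree

/-- `m ≥ 4` is even and every prime `p` with `m - p` prime is at least `B` -/
def LeastPrimeGe (B : ℝ) (m : ℕ) : Prop :=
  4 ≤ m ∧ Even m ∧ ∀ p : ℕ, p.Prime → (m - p).Prime → B ≤ p

open Classical in
/-- There is `c > 0` such that for all large `Y` and all `A` at least `Y^(1 - 1/log log Y)` even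
`m ∈ (A, A + Y]` have least Goldbach prime at least
`c log Y (log log Y)^3 log log log log Y / (log log log Y)^4`. -/
theorem result :
    ∃ c : ℝ, 0 < c ∧ ∃ Y₀ : ℕ, ∀ Y : ℕ, Y₀ ≤ Y → ∀ A : ℕ,
      (Y : ℝ) ^ (1 - 1 / Real.log (Real.log Y)) ≤
        (#{m ∈ Ioc A (A + Y) | LeastPrimeGe (c * Real.log Y * Real.log (Real.log Y) ^ 3 *
          Real.log (Real.log (Real.log (Real.log Y))) /
          Real.log (Real.log (Real.log Y)) ^ 4) m} : ℝ) := by
  obtain ⟨c, hc, Y₀, hY⟩ := Lib.MP_bae66e_nt.TL.part_one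
  refine ⟨c, hc, Y₀, fun Y hYY A => ?_⟩
  refine hY Y hYY A _ ?_
  intro m hm h1 h2 h3
  rw [mem_filter]
  exact ⟨hm, h1, h2, h3⟩

end Pool.Agent.Results.MP_bae66e_nt.LargeValuesThree
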