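import Pool.Agent.Lib.MP_bae66e_nt.LL.C.C11
import Pool.Agent.Lib.MP_bae66e_nt.LL.C.C12
import Pool.Agent.Lib.MP_bae66e_nt.LL.M.M03
import Pool.Agent.Lib.MP_bae66e_nt.LL.M.M04

/-!
# The limiting distribution of `g(m) / (log m loglog m)`

`g(m)` is the least prime `p` such that `m - p` is prime (`∞` if there is none) and `S(m)` is the
singular series of Goldbach's problem. `D(t)` is the mean value of `exp(-t S(m))` over the even `m`.
For every `t > 0`:

* the proportion of the even `m ≤ X` with `g(m) > t log m loglog m` is at least `D(t) - o(1)`;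
* it tends to `D(t)` if and only if the primes are equidistributed, modulo the product of the primes
  `≤ w` for every `w`, in almost all intervals of length `t log X loglog X`.
-/

set_option autoImplicit false

open Finset Filter Topology

namespace Pool.Agent.Results.MP_bae66e_nt.LimitLaw

/-- The twin prime constant `∏_{p > 2} (1 - 1/(p - 1)²)`. -/
noncomputable def C2 : ℝ := ∏' p : ℕ, if p.Prime ∧ 2 < p then 1 - 1 / ((p : ℝ) - 1) ^ 2 else 1

/-- The singular series `S(m) = 2 C2 ∏_{p ∣ m, p > 2} (p - 1)/(p - 2)` of Goldbach's problem. -/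
noncomputable def S (m : ℕ) : ℝ :=
  2 * C2 * ∏ p ∈ m.primeFactors.filter (fun p => 2 < p), ((p : ℝ) - 1) / ((p : ℝ) - 2)

/-- The mean of `f` over the even `m ≤ X`. -/
noncomputable def mean (f : ℕ → ℝ) (X : ℕ) : ℝ :=
  (∑ m ∈ (Finset.Icc 1 X).filter (fun m => Even m), f m) / ((X : ℝ) / 2)

/-- `g(m) > t log m loglog m`: every prime `p` such that `m - p` is prime is larger than
`t log m loglog m`. -/
def Large (t : ℝ) (m : ℕ) : Prop :=
  ∀ p q : ℕ, p.Prime → q.Prime → p + q = m → t * Real.log m * Real.log (Real.log m) < p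

open Classical in
/-- The proportion of the even `m ≤ X` with `g(m) > t log m loglog m`. -/
noncomputable def proportion (t : ℝ) (X : ℕ) : ℝ :=
  (((Finset.Icc 1 X).filter (fun m : ℕ => Even m ∧ Large t m)).card : ℝ) / ((X : ℝ) / 2)

open Classical in
/-- The number of the primes `q ≡ b` modulo `W` with `m - y ≤ q < m`. -/
noncomputable def primesBefore (y : ℝ) (W : ℕ) (b : ℤ) (m : ℕ) : ℕ :=
  ((Finset.range m).filter (fun q : ℕ => q.Prime ∧ (m : ℝ) - y ≤ q ∧ (q : ℤ) ≡ b [ZMOD (W : ℤ)])).card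

open Classical in
/-- The primes are equidistributed, modulo `P = ∏_{p ≤ w} p` for every `w`, in almost all intervals
of length `t log X loglog X`: for `b` coprime to `P`, all but at most `ε X` of the `m ≤ X` are such
that the number of the primes `q ≡ b` modulo `P` with `m - t log X loglog X ≤ q < m` differs from its
expected value `t loglog X / φ(P)` by at most `ε loglog X`. -/
def Equidistributed (t : ℝ) : Prop :=
  ∀ w : ℕ, ∀ b : ℤ, IsCoprime b ((primorial w : ℕ) : ℤ) → ∀ ε : ℝ, 0 < ε → ∀ᶠ X : ℕ in atTop,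
    (((Finset.Icc 1 X).filter (fun m : ℕ =>
      ε * Real.log (Real.log X)
        < |(primesBefore (t * Real.log X * Real.log (Real.log X)) (primorial w) b m : ℝ)
          - t * Real.log (Real.log X) / (Nat.totient (primorial w) : ℝ)|)).card : ℝ) ≤ ε * X

open Lib.MP_bae66e_nt.LL

lemma C2_eq : C2 = twinC := rfl

lemma S_eq (m : ℕ) : S m = singSer m := rfl

lemma primesBefore_eq (t : ℝ) (X W : ℕ) (b : ℤ) (m : ℕ) (hm : 1 ≤ m) (hmX : m ≤ X)
    (hy : 0 ≤ t * Real.log X * Real.log (Real.log X)) :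
    primesBefore (t * Real.log X * Real.log (Real.log X)) W b m = nC X (yX t X) W b (m : ℤ) := by
  unfold primesBefore nC QQ
  congr 1
  ext q
  rw [Finset.mem_filter, Finset.mem_filter, Finset.mem_filter, Finset.mem_range, Finset.mem_Ioc]
  have key : q < m → ((m : ℝ) - t * Real.log X * Real.log (Real.log X) ≤ q
      ↔ (m : ℤ) - (q : ℤ) ≤ ((yX t X : ℕ) : ℤ)) := by
    intro hq
    have h1 : (((m - q : ℕ) : ℕ) : ℝ) = (m : ℝ) - q := by
      rw [Nat.cast_sub hq.le]
    have h2 : (m - q : ℕ) ≤ yX t X ↔ ((m - q : ℕ) : ℝ) ≤ t * Real.log X * Real.log (Real.log X) := by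
      unfold yX
      exact Nat.le_floor_iff hy
    rw [h1] at h2
    constructor
    · intro h
      have := h2.2 (by linarith)
      omega
    · intro h
      have := h2.1 (by omega)
      linarith
  constructor
  · rintro ⟨h1, h2, h3, h4⟩
    exact ⟨⟨⟨h2.pos, by omega⟩, h2⟩, by omega, (key h1).1 h3, h4⟩
  · rintro ⟨⟨⟨h1, h2⟩, h3⟩, h4, h5, h6⟩
    have h7 : q < m := by omega
    exact ⟨h7, h3, (key h7).2 h5, h6⟩

lemma eventually_nonneg (t : ℝ) (ht : 0 < t) : ∀ᶠ X : ℕ in atTop,
    0 ≤ t * Real.log X * Real.log (Real.log X) := by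
  have h1 : Tendsto (fun X : ℕ => Real.log (X : ℝ)) atTop atTop :=
    Real.tendsto_log_atTop.comp (tendsto_natCast_atTop_atTop (R := ℝ))
  filter_upwards [h1.eventually_ge_atTop 1] with X hX
  have := Real.log_nonneg hX
  positivity

lemma card_cast (P : ℤ → Prop) [DecidablePred P] (Q : ℕ → Prop) [DecidablePred Q] (X : ℕ)
    (h : ∀ m : ℕ, 1 ≤ m → m ≤ X → (Q m ↔ P (m : ℤ))) :
    ((Finset.Ioc (0 : ℤ) (X : ℤ)).filter P).card = ((Finset.Icc 1 X).filter Q).card := by
  symm
  refine Finset.card_bij (fun (m : ℕ) _ => (m : ℤ)) ?_ ?_ ?_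
  · intro m hm
    rw [Finset.mem_filter, Finset.mem_Icc] at hm
    rw [Finset.mem_filter, Finset.mem_Ioc]
    exact ⟨⟨by omega, by omega⟩, (h m hm.1.1 hm.1.2).1 hm.2⟩
  · intro a _ b _ hab
    exact_mod_cast hab
  · intro m hm
    rw [Finset.mem_filter, Finset.mem_Ioc] at hm
    have e : ((m.toNat : ℕ) : ℤ) = m := by omega
    refine ⟨m.toNat, ?_, e⟩
    rw [Finset.mem_filter, Finset.mem_Icc]
    exact ⟨⟨by omega, by omega⟩, (h m.toNat (by omega) (by omega)).2 (by rw [e]; exact hm.2)⟩

lemma equidistributed_iff (t : ℝ) (ht : 0 < t) : Equidistributed t ↔ EquiAt t := by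
  classical
  obtain ⟨X₁, hX₁⟩ := Filter.eventually_atTop.1 (eventually_nonneg t ht)
  have key : ∀ X : ℕ, X₁ ≤ X → ∀ (w : ℕ) (b : ℤ) (ε : ℝ),
      ((Finset.Ioc (0 : ℤ) (X : ℤ)).filter (fun m : ℤ =>
        ε * Real.log (Real.log X) < |(nC X (yX t X) (primorial w) b m : ℝ)
          - t * Real.log (Real.log X) / (Nat.totient (primorial w) : ℝ)|)).card
      = ((Finset.Icc 1 X).filter (fun m : ℕ =>
      ε * Real.log (Real.log X)
        < |(primesBefore (t * Real.log X * Real.log (Real.log X)) (primorial w) b m : ℝ)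
          - t * Real.log (Real.log X) / (Nat.totient (primorial w) : ℝ)|)).card := by
    intro X hX w b ε
    refine card_cast _ _ X fun m hm hmX => ?_
    rw [primesBefore_eq t X (primorial w) b m hm hmX (hX₁ X hX)]
  constructor
  · intro h w b hb ε hε
    obtain ⟨X₀, hX₀⟩ := Filter.eventually_atTop.1 (h w b hb ε hε)
    refine ⟨max X₀ X₁, fun X hX => ?_⟩
    have h1 := hX₀ X (by omega)
    have h2 := key X (by omega) w b ε
    calc _ = (((Finset.Icc 1 X).filter (fun m : ℕ =>
      ε * Real.log (Real.log X)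
        < |(primesBefore (t * Real.log X * Real.log (Real.log X)) (primorial w) b m : ℝ)
          - t * Real.log (Real.log X) / (Nat.totient (primorial w) : ℝ)|)).card : ℝ) := by
          rw [← h2]
      _ ≤ ε * X := h1
  · intro h w b hb ε hε
    obtain ⟨X₀, hX₀⟩ := h w b hb ε hε
    refine Filter.eventually_atTop.2 ⟨max X₀ X₁, fun X hX => ?_⟩
    have h1 := hX₀ X (by omega)
    have h2 := key X (by omega) w b ε
    calc _ = (((Finset.Ioc (0 : ℤ) (X : ℤ)).filter (fun m : ℤ =>
        ε * Real.log (Real.log X) < |(nC X (yX t X) (primorial w) b m : ℝ)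
          - t * Real.log (Real.log X) / (Nat.totient (primorial w) : ℝ)|)).card : ℝ) := by
          rw [h2]
      _ ≤ ε * X := h1

lemma proportion_eq (t : ℝ) (X : ℕ) : proportion t X = (cntM t X : ℝ) / ((X : ℝ) / 2) := rfl

lemma limitLawAt_iff (t : ℝ) (ht : 0 < t) :
    Tendsto (proportion t) atTop (𝓝 (DDlim t)) ↔ LimitLawAt t := by
  constructor
  · intro h ε hε
    obtain ⟨X₁, hX₁⟩ := cntX_lower t ht ε hε
    have h1 : ∀ᶠ X : ℕ in atTop, proportion t X < DDlim t + ε :=
      h.eventually (gt_mem_nhds (by linarith))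
    obtain ⟨X₂, hX₂⟩ := Filter.eventually_atTop.1 h1
    refine ⟨max (max X₁ X₂) 1, fun X hX => ?_⟩
    have h2 := hX₁ X (by omega)
    have h3 := hX₂ X (by omega)
    have hX0 : (0 : ℝ) < X := by exact_mod_cast (by omega : 0 < X)
    rw [proportion_eq, div_lt_iff₀ (by linarith)] at h3
    have h4 : (cntX t X : ℝ) ≤ cntM t X := by exact_mod_cast cntX_le_cntM t ht.le X
    rw [abs_le]
    constructor
    · nlinarith
    · nlinarith
  · intro h
    rw [Metric.tendsto_atTop]
    intro ε hε
    obtain ⟨X₁, hX₁⟩ := h (ε / 8) (by linarith)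
    obtain ⟨X₂, hX₂⟩ := cntM_le t ht (ε / 8) (by linarith)
    refine ⟨max (max X₁ X₂) 1, fun X hX => ?_⟩
    have h2 := hX₁ X (by omega)
    have h3 := hX₂ X (by omega)
    have hX0 : (0 : ℝ) < X := by exact_mod_cast (by omega : 0 < X)
    have h4 : (cntX t X : ℝ) ≤ cntM t X := by exact_mod_cast cntX_le_cntM t ht.le X
    rw [abs_le] at h2
    rw [proportion_eq, Real.dist_eq, abs_lt]
    constructor
    · have h5 : DDlim t - ε / 2 ≤ (cntM t X : ℝ) / ((X : ℝ) / 2) := by
        rw [le_div_iff₀ (by linarith)]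
        nlinarith [h2.1]
      linarith
    · have h5 : (cntM t X : ℝ) / ((X : ℝ) / 2) ≤ DDlim t + ε / 2 := by
        rw [div_le_iff₀ (by linarith)]
        nlinarith [h2.2]
      linarith

/-- **The lower half of the limit law of `g(m)/(log m loglog m)` and the equivalence of the full
limit law with the equidistribution of the primes in almost all short intervals.** -/
theorem result : ∃ D : ℝ → ℝ, ∀ t : ℝ, 0 < t →
    Tendsto (mean (fun m => Real.exp (-(t * S m)))) atTop (𝓝 (D t)) ∧
    (∀ ε : ℝ, 0 < ε → ∀ᶠ X : ℕ in atTop, D t - ε ≤ proportion t X) ∧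
    (Tendsto (proportion t) atTop (𝓝 (D t)) ↔ Equidistributed t) := by
  refine ⟨DDlim, fun t ht => ⟨?_, ?_, ?_⟩⟩
  · rw [Metric.tendsto_atTop]
    intro ε hε
    obtain ⟨X₁, hX₁⟩ := mean_singSer_eps t ht.le (ε / 4) (by linarith)
    refine ⟨max X₁ 1, fun X hX => ?_⟩
    have h2 := hX₁ X (by omega)
    have hX0 : (0 : ℝ) < X := by exact_mod_cast (by omega : 0 < X)
    have h3 : mean (fun m => Real.exp (-(t * S m))) X - DDlim t
        = ((∑ m ∈ (Finset.Icc 1 X).filter (fun m => Even m), Real.exp (-(t * singSer m)))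
          - DDlim t * X / 2) / ((X : ℝ) / 2) := by
      unfold mean
      simp only [S_eq]
      field_simp
    rw [Real.dist_eq, h3, abs_div, abs_of_pos (show (0 : ℝ) < X / 2 by linarith),
      div_lt_iff₀ (by linarith)]
    nlinarith
  · intro ε hε
    obtain ⟨X₁, hX₁⟩ := cntX_lower t ht ε hε
    refine Filter.eventually_atTop.2 ⟨max X₁ 1, fun X hX => ?_⟩
    have h2 := hX₁ X (by omega)
    have hX0 : (0 : ℝ) < X := by exact_mod_cast (by omega : 0 < X)
    have h4 : (cntX t X : ℝ) ≤ cntM t X := by exact_mod_cast cntX_le_cntM t ht.le X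
    rw [proportion_eq, le_div_iff₀ (by linarith)]
    linarith
  · rw [limitLawAt_iff t ht, limitLawAt_iff_equiAt t ht, equidistributed_iff t ht]

end Pool.Agent.Results.MP_bae66e_nt.LimitLaw
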