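import Pool.Agent.Lib.MP_bae66e_nt.MG.F2
import Pool.Agent.Lib.MP_bae66e_nt.MA.Iface

/-!
# Maier's phenomenon for Goldbach's problem with a small prime

Let `N(m)` be the number of primes `p ≤ y(m) = lam (log m)^B (log log m)^β` for which `m - p` is
prime, and `E(m) = S(m) π(y(m)) / log m` its expected value (`S` is the singular series of
Goldbach's problem). Let `ω` be Buchstab's function. For every `B > 1`, `lam > 0`, `β`, every
`v ≥ B` and `ε > 0`, for all large `X` at least `X^(1-ε)` even `m ≤ X` have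
`N(m) ≥ (e^γ ω(v) - ε) E(m)`, and at least `X^(1-ε)` have `N(m) ≤ (e^γ ω(v) + ε) E(m)`. As
`e^γ ω(v)` is both larger and smaller than `1` for arbitrarily large `v`, the number `N(m)` is not
asymptotic to `E(m)`, for any exponent `B`; `B = 2`, `β = 1` is the scale of the conjecture of
Granville, van de Lune and te Riele.
-/

set_option autoImplicit false

namespace Pool.Agent.Results.MP_bae66e_nt.MaierGoldbach

open Pool.Agent.MG

theorem result : ∃ ω : ℝ → ℝ, ContinuousOn ω (Set.Ici 1) ∧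
    (∀ u, 1 ≤ u → u ≤ 2 → u * ω u = 1) ∧
    (∀ u, 2 ≤ u → u * ω u = 1 + ∫ x in (1 : ℝ)..(u - 1), ω x) ∧
    (∀ B : ℝ, ∃ v, B < v ∧ Real.exp (-Real.eulerMascheroniConstant) < ω v) ∧
    (∀ B : ℝ, ∃ v, B < v ∧ ω v < Real.exp (-Real.eulerMascheroniConstant)) ∧
    ∀ lam B β : ℝ, 0 < lam → 1 < B → ∀ v : ℝ, B ≤ v → ∀ ε : ℝ, 0 < ε →
      ∃ X₀ : ℕ, ∀ X : ℕ, X₀ ≤ X →
        (X : ℝ) ^ (1 - ε) ≤ (((Finset.Icc 1 X).filter (fun m => Even m ∧
          (Real.exp Real.eulerMascheroniConstant * ω v - ε)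
            * expected m (scale lam B β (Real.log m))
              ≤ (repCount m (scale lam B β (Real.log m)) : ℝ))).card : ℝ) ∧
        (X : ℝ) ^ (1 - ε) ≤ (((Finset.Icc 1 X).filter (fun m => Even m ∧
          (repCount m (scale lam B β (Real.log m)) : ℝ) ≤
            (Real.exp Real.eulerMascheroniConstant * ω v + ε)
              * expected m (scale lam B β (Real.log m)))).card : ℝ) := by
  obtain ⟨ω, hc, h12, h2, hgt, hlt, hlog⟩ := Pool.Agent.MA.buchstab
  exact ⟨ω, hc, h12, h2, hgt, hlt, fun lam B β hlam hB v hv ε hε =>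
    maier_at ω (fun v₁ v₂ h1 h => hlog v₁ v₂ h1 h) hc h12 h2 lam B β hlam hB v hv ε hε⟩

end Pool.Agent.Results.MP_bae66e_nt.MaierGoldbach
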