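import Pool.Agent.Lib.MP_bae66e_nt.MU.F6
import Pool.Agent.Lib.MP_bae66e_nt.MU.N2
import Pool.Agent.Lib.MP_bae66e_nt.MG.F2
import Pool.Agent.Lib.MP_bae66e_nt.MA.Iface

/-!
# Maier's phenomenon for Goldbach's problem with a small prime, at every scale

Let `N(m, y)` be the number of primes `p ≤ y` for which `m - p` is prime (`repCount m y`), and
`E(m, y) = S(m) π(y) / log m` its expected value (`expected m y`; `S` is the singular series of
Goldbach's problem).

(a) At the scale of the conjecture of Granville, van de Lune and te Riele: let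
`y = lam (log m)^2 log log m`, with any constant `lam > 0`. For all large `X` at least `X^(1-ε)` even
`m ≤ X` have `N(m, y) ≥ 1.01 E(m, y)`, and at least `X^(1-ε)` even `m ≤ X` have
`N(m, y) ≤ 0.8906 E(m, y)`.

(b) Uniformly in the scale: let `0 < ε < 1`, `0 < θ < 1/3`. For all large `X` and ALL real `y` with
`log X ≤ y ≤ exp ((log X)^θ)`, with `u = log y / log log X` and
`η = c exp (-(1 + ε) u log u / (1 - θ))`, `c = c(ε, θ) > 0`, at least `X^(1-ε)` even `m ≤ X` have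
`N(m, y) ≥ (1 + η) E(m, y)`, and at least `X^(1-ε)` even `m ≤ X` have `N(m, y) ≤ (1 - η) E(m, y)`.

(c) At `y = exp ((log X)^β)`, `0 < β < 1/3`, one can take `η = y^(-β/(1-β)-ε)`, larger than the
`y^(-1/2)` of a random model.

(d) With the constants of Maier's theorem: let `ω` be Buchstab's function,
`y(m) = lam (log m)^B (log log m)^β`. For every `B > 1`, `lam > 0`, `β`, every `v ≥ B` and `ε > 0`,
for all large `X` at least `X^(1-ε)` even `m ≤ X` have
`N(m, y(m)) ≥ (e^γ ω(v) - ε) E(m, y(m))`, and at least `X^(1-ε)` have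
`N(m, y(m)) ≤ (e^γ ω(v) + ε) E(m, y(m))`; `e^γ ω(v)` is both larger and smaller than `1` for
arbitrarily large `v`. (Part (a) is `B = 2`, `β = 1` with `v = 25/9` and `v = 2`.)
-/

set_option autoImplicit false

namespace Pool.Agent.Results.MP_bae66e_nt.MaierUniform

open Pool.Agent.MG

theorem result :
    (∀ lam ε : ℝ, 0 < lam → 0 < ε → ∃ X₀ : ℕ, ∀ X : ℕ, X₀ ≤ X →
        (X : ℝ) ^ (1 - ε) ≤ (((Finset.Icc 1 X).filter (fun m => Even m ∧
          1.01 * expected m (lam * Real.log m ^ 2 * Real.log (Real.log m)) ≤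
            (repCount m (lam * Real.log m ^ 2 * Real.log (Real.log m)) : ℝ))).card : ℝ) ∧
        (X : ℝ) ^ (1 - ε) ≤ (((Finset.Icc 1 X).filter (fun m => Even m ∧
          (repCount m (lam * Real.log m ^ 2 * Real.log (Real.log m)) : ℝ) ≤
            0.8906 * expected m (lam * Real.log m ^ 2 * Real.log (Real.log m)))).card : ℝ)) ∧
    (∀ ε θ : ℝ, 0 < ε → ε < 1 → 0 < θ → θ < 1 / 3 →
      ∃ c : ℝ, 0 < c ∧ ∃ X₀ : ℕ, ∀ X : ℕ, X₀ ≤ X → ∀ y u : ℝ,
        Real.log X ≤ y → y ≤ Real.exp ((Real.log X) ^ θ) →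
        u = Real.log y / Real.log (Real.log X) →
        (X : ℝ) ^ (1 - ε) ≤ (((Finset.Icc 1 X).filter (fun m => Even m ∧
          (1 + c * Real.exp (-((1 + ε) / (1 - θ) * (u * Real.log u)))) * expected m y
            ≤ (repCount m y : ℝ))).card : ℝ) ∧
        (X : ℝ) ^ (1 - ε) ≤ (((Finset.Icc 1 X).filter (fun m => Even m ∧
          (repCount m y : ℝ)
            ≤ (1 - c * Real.exp (-((1 + ε) / (1 - θ) * (u * Real.log u))))
              * expected m y)).card : ℝ)) ∧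
    (∀ ε β : ℝ, 0 < ε → ε < 1 → 0 < β → β < 1 / 3 →
      ∃ X₀ : ℕ, ∀ X : ℕ, X₀ ≤ X → ∀ y : ℝ, y = Real.exp ((Real.log X) ^ β) →
        (X : ℝ) ^ (1 - ε) ≤ (((Finset.Icc 1 X).filter (fun m => Even m ∧
          (1 + y ^ (-(β / (1 - β) + ε))) * expected m y ≤ (repCount m y : ℝ))).card : ℝ) ∧
        (X : ℝ) ^ (1 - ε) ≤ (((Finset.Icc 1 X).filter (fun m => Even m ∧
          (repCount m y : ℝ) ≤ (1 - y ^ (-(β / (1 - β) + ε))) * expected m y)).card : ℝ)) ∧
    ∃ ω : ℝ → ℝ, ContinuousOn ω (Set.Ici 1) ∧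
      (∀ u, 1 ≤ u → u ≤ 2 → u * ω u = 1) ∧
      (∀ u, 2 ≤ u → u * ω u = 1 + ∫ x in (1 : ℝ)..(u - 1), ω x) ∧
      (∀ B : ℝ, ∃ v, B < v ∧ Real.exp (-Real.eulerMascheroniConstant) < ω v) ∧
      (∀ B : ℝ, ∃ v, B < v ∧ ω v < Real.exp (-Real.eulerMascheroniConstant)) ∧
      ∀ lam B β : ℝ, 0 < lam → 1 < B → ∀ v : ℝ, B ≤ v → ∀ ε : ℝ, 0 < ε →
        ∃ X₀ : ℕ, ∀ X : ℕ, X₀ ≤ X →
          (X : ℝ) ^ (1 - ε) ≤ (((Finset.Icc 1 X).filter (fun m => Even m ∧
            (Real.exp Real.eulerMascheroniConstant * ω v - ε)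
              * expected m (scale lam B β (Real.log m))
                ≤ (repCount m (scale lam B β (Real.log m)) : ℝ))).card : ℝ) ∧
          (X : ℝ) ^ (1 - ε) ≤ (((Finset.Icc 1 X).filter (fun m => Even m ∧
            (repCount m (scale lam B β (Real.log m)) : ℝ) ≤
              (Real.exp Real.eulerMascheroniConstant * ω v + ε)
                * expected m (scale lam B β (Real.log m)))).card : ℝ) := by
  refine ⟨fun lam ε h1 h2 => Pool.Agent.MU.maier_numbers lam ε h1 h2,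
    fun ε θ h1 h2 h3 h4 => Pool.Agent.MU.maier_uniform ε θ h1 h2 h3 h4,
    fun ε β h1 h2 h3 h4 => Pool.Agent.MU.maier_beta ε β h1 h2 h3 h4, ?_⟩
  obtain ⟨ω, hc, h12, h2, hgt, hlt, hlog⟩ := Pool.Agent.MA.buchstab
  exact ⟨ω, hc, h12, h2, hgt, hlt, fun lam B β hlam hB v hv ε hε =>
    maier_at ω (fun v₁ v₂ h1 h => hlog v₁ v₂ h1 h) hc h12 h2 lam B β hlam hB v hv ε hε⟩

end Pool.Agent.Results.MP_bae66e_nt.MaierUniform
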