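import Pool.Agent.Lib.MP_bae66e_nt.TL.D5

/-!
# Large values of the least Goldbach prime in almost all very short intervals
-/

set_option autoImplicit false

open Finset

namespace Pool.Agent.Lib.MP_bae66e_nt.Retired.ShortWindows

/-- `m ≥ 4` is even and every prime `p` with `m - p` prime is at least `B` -/
def LeastPrimeGe (B : ℝ) (m : ℕ) : Prop :=
  4 ≤ m ∧ Even m ∧ ∀ p : ℕ, p.Prime → (m - p).Prime → B ≤ p

open Classical in
/-- For every `ε > 0` there is `c > 0` such that for all `θ ∈ (0, 1]`, all large `Y` and all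
`A`, for all but at most `ε Y` of the integers `a ∈ (A, A + Y]` the interval `(a, a + (log Y)^θ]`
contains an even `m` whose least Goldbach prime is at least
`c θ log Y (log log Y)^2 / (log log log Y)^2`. -/
theorem result (ε : ℝ) (hε : 0 < ε) : ∃ c : ℝ, 0 < c ∧ ∀ θ : ℝ, 0 < θ → θ ≤ 1 →
      ∃ Y₀ : ℕ, ∀ Y : ℕ, Y₀ ≤ Y → ∀ A : ℕ,
        (#{a ∈ Ioc A (A + Y) | ¬ ∃ m : ℕ, a < m ∧ (m : ℝ) ≤ a + Real.log Y ^ θ ∧
          LeastPrimeGe (c * θ * Real.log Y * Real.log (Real.log Y) ^ 2 /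
            Real.log (Real.log (Real.log Y)) ^ 2) m} : ℝ) ≤ ε * Y := by
  obtain ⟨c, hc, h⟩ := Lib.MP_bae66e_nt.TL.part_two ε hε
  refine ⟨c, hc, fun θ hθ hθ1 => ?_⟩
  obtain ⟨Y₀, hY⟩ := h θ hθ hθ1
  refine ⟨Y₀, fun Y hYY A => ?_⟩
  refine hY Y hYY A _ (filter_subset _ _) ?_
  intro a ha
  rw [mem_filter] at ha
  rintro ⟨m, h1, h2, h3, h4, h5⟩
  exact ha.2 ⟨m, h1, h2, h3, h4, h5⟩

end Pool.Agent.Lib.MP_bae66e_nt.Retired.ShortWindows
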